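import Pool.Agent.Y6.G.Stm

/-!
Project EP, part RATE: bound of the quadratic term (adapted from helper550's EF part RATE).
-/

set_option autoImplicit false

open Set Filter Topology

namespace Pool.Agent.Y217.EP.Rate

open Pool.Agent.Y6.M (Z3 Md Frame cK)
open Pool.Agent.Y6.G
open Pool.Agent.Y6.F (DSol Mx κr Prt rk code cd ln NM S_CODE S_IBP S_LIMR S_UC)

/-- The modes of a given frequency. -/
noncomputable def fr (k : Z3) : Finset Md :=
  open Classical in
  if h : k ≠ 0 then {(⟨k, h⟩, true), (⟨k, h⟩, false)} else ∅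

theorem fr_card (k : Z3) : (fr k).card ≤ 2 := by
  classical
  unfold fr
  split_ifs with h
  · exact Finset.card_le_two
  · simp

theorem mem_fr {k : Z3} {b : Md} (h : b.1.1 = k) : b ∈ fr k := by
  classical
  subst h
  unfold fr
  rw [dif_pos b.1.2]
  obtain ⟨k, s⟩ := b
  cases s <;> simp

/-- The sum of a function of the first mode over the pairs. -/
theorem sum_fst (u : Md → ℝ) (hu0 : ∀ a, 0 ≤ u a) (hu : Summable u) (k : Z3) :
    Summable (fun p : Md × Md => if p.1.1.1 + p.2.1.1 = k then u p.1 else 0) ∧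
      ∑' p : Md × Md, (if p.1.1.1 + p.2.1.1 = k then u p.1 else 0) ≤ 2 * ∑' a, u a := by
  classical
  set f : Md × Md → ℝ := fun p => if p.1.1.1 + p.2.1.1 = k then u p.1 else 0 with hf
  have hf0 : ∀ p, 0 ≤ f p := by
    intro p
    simp only [hf]
    split_ifs
    · exact hu0 _
    · exact le_rfl
  have hz : ∀ a, ∀ b ∉ fr (k - a.1.1), f (a, b) = 0 := by
    intro a b hb
    simp only [hf]
    rw [if_neg]
    intro h
    exact hb (mem_fr (by rw [← h]; abel))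
  have hs : ∀ a, HasSum (fun b => f (a, b)) (∑ b ∈ fr (k - a.1.1), f (a, b)) := fun a =>
    hasSum_sum_of_ne_finset_zero (hz a)
  have hle : ∀ a, ∑' b, f (a, b) ≤ 2 * u a := by
    intro a
    rw [(hs a).tsum_eq]
    have h1 : ∑ b ∈ fr (k - a.1.1), f (a, b) ≤ ∑ _b ∈ fr (k - a.1.1), u a := by
      refine Finset.sum_le_sum fun b _ => ?_
      simp only [hf]
      split_ifs
      · exact le_rfl
      · exact hu0 _
    rw [Finset.sum_const, nsmul_eq_mul] at h1
    refine h1.trans ?_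
    have h2 : ((fr (k - a.1.1)).card : ℝ) ≤ 2 := by exact_mod_cast fr_card _
    exact mul_le_mul_of_nonneg_right h2 (hu0 _)
  have h0 : ∀ a, 0 ≤ ∑' b, f (a, b) := fun a => tsum_nonneg fun b => hf0 _
  have hs2 : Summable fun a => ∑' b, f (a, b) :=
    Summable.of_nonneg_of_le h0 hle (hu.mul_left 2)
  have hsum : Summable f :=
    (summable_prod_of_nonneg hf0).2 ⟨fun a => (hs a).summable, hs2⟩
  refine ⟨hsum, ?_⟩
  rw [hsum.tsum_prod, ← tsum_mul_left]
  exact hs2.tsum_le_tsum hle (hu.mul_left 2)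

theorem sum_snd (u : Md → ℝ) (hu0 : ∀ a, 0 ≤ u a) (hu : Summable u) (k : Z3) :
    Summable (fun p : Md × Md => if p.1.1.1 + p.2.1.1 = k then u p.2 else 0) ∧
      ∑' p : Md × Md, (if p.1.1.1 + p.2.1.1 = k then u p.2 else 0) ≤ 2 * ∑' a, u a := by
  obtain ⟨h1, h2⟩ := sum_fst u hu0 hu k
  have e : (fun p : Md × Md => if p.1.1.1 + p.2.1.1 = k then u p.2 else 0) =
      (fun p : Md × Md => if p.1.1.1 + p.2.1.1 = k then u p.1 else 0) ∘ (Equiv.prodComm Md Md) := by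
    funext p
    change (if p.1.1.1 + p.2.1.1 = k then u p.2 else 0) =
      (if p.2.1.1 + p.1.1.1 = k then u p.2 else 0)
    by_cases hp : p.1.1.1 + p.2.1.1 = k
    · exact (if_pos hp).trans (if_pos ((add_comm _ _).trans hp)).symm
    · exact (if_neg hp).trans (if_neg fun hq => hp ((add_comm _ _).trans hq)).symm
  constructor
  · rw [e]
    exact (Equiv.prodComm Md Md).summable_iff.2 h1
  · rw [e]
    have h3 := (Equiv.prodComm Md Md).tsum_eq
      (fun p : Md × Md => if p.1.1.1 + p.2.1.1 = k then u p.1 else 0)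
    exact (le_of_eq h3).trans h2

/-- The sum over the pairs of main modes. -/
theorem sum_main (hSU : S_SUMS) (k : Z3) (hk : k ≠ 0) :
    Summable (fun p : Md × Md => open Classical in
      if σM p.1 = 0 ∧ σM p.2 = 0 ∧ p.1.1.1 + p.2.1.1 = k then (1 : ℝ) else 0) ∧
      ∑' p : Md × Md, (open Classical in
        if σM p.1 = 0 ∧ σM p.2 = 0 ∧ p.1.1.1 + p.2.1.1 = k then (1 : ℝ) else 0) ≤ 32 := by
  classical
  obtain ⟨hfin, hcard⟩ := hSU.2.1 k hk
  have hs : HasSum (fun p : Md × Md =>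
      if σM p.1 = 0 ∧ σM p.2 = 0 ∧ p.1.1.1 + p.2.1.1 = k then (1 : ℝ) else 0)
      (∑ p ∈ hfin.toFinset,
        if σM p.1 = 0 ∧ σM p.2 = 0 ∧ p.1.1.1 + p.2.1.1 = k then (1 : ℝ) else 0) := by
    refine hasSum_sum_of_ne_finset_zero fun p hp => if_neg fun h => hp ?_
    rw [Set.Finite.mem_toFinset]
    exact h
  refine ⟨hs.summable, ?_⟩
  rw [hs.tsum_eq]
  have h1 : (∑ p ∈ hfin.toFinset,
      if σM p.1 = 0 ∧ σM p.2 = 0 ∧ p.1.1.1 + p.2.1.1 = k then (1 : ℝ) else 0) ≤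
      ∑ _p ∈ hfin.toFinset, (1 : ℝ) := by
    refine Finset.sum_le_sum fun p _ => ?_
    split_ifs <;> norm_num
  refine h1.trans ?_
  rw [Finset.sum_const, nsmul_eq_mul, mul_one, ← Set.ncard_eq_toFinset_card _ hfin]
  exact_mod_cast hcard

/-- The product of the bounds of two modes. -/
theorem prod_le {M : ℕ → ℝ} (hC : S_CODE) (hE : S_ENV) (hM : Adq M) (i : Md) (p : Md × Md)
    (h : p.1.1.1 + p.2.1.1 = i.1.1) :
    eF M p.1 * eF M p.2 ≤ ln i * env M (ln i) * ((open Classical in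
      if σM p.1 = 0 ∧ σM p.2 = 0 ∧ p.1.1.1 + p.2.1.1 = i.1.1 then (1 : ℝ) else 0) +
        (10 ^ 20 : ℝ)⁻¹ * ((ln p.1 ^ 4)⁻¹ + (ln p.2 ^ 4)⁻¹)) := by
  classical
  obtain ⟨e1, e2, e3, e4, e5, -⟩ := hE.1 M hM
  obtain ⟨-, -, -, -, c1, c2⟩ := hC
  have hL := (c1 i).1
  have ha := (c1 p.1).1
  have hb := (c1 p.2).1
  have htri := (c2 i p.1 p.2 h).1
  set L := ln i
  set la := ln p.1
  set lb := ln p.2
  have hEL := e2 L hL
  have hpos := (e5 L).1
  have hLE : 0 ≤ L * env M L := by positivity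
  have hprod : env M la * env M lb ≤ L * env M L := by
    by_cases hla : L / 2 ≤ la
    · have h1 : env M la ≤ env M (L / 2) := e1 _ _ (by linarith) hla
      calc env M la * env M lb ≤ env M la * 1 :=
            mul_le_mul_of_nonneg_left (e5 lb).2 (e5 la).1.le
        _ ≤ L * env M L := by rw [mul_one]; exact h1.trans hEL
    · have h1 : env M lb ≤ env M (L / 2) := e1 _ _ (by linarith) (by linarith)
      calc env M la * env M lb ≤ 1 * env M lb :=
            mul_le_mul_of_nonneg_right (e5 la).2 (e5 lb).1.le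
        _ ≤ L * env M L := by rw [one_mul]; exact h1.trans hEL
  have hpow : ∀ l : ℝ, 1 ≤ l → (l ^ 7)⁻¹ ≤ (l ^ 4)⁻¹ ∧ (l ^ 7)⁻¹ ≤ 1 ∧ 0 < (l ^ 7)⁻¹ ∧
      0 < (l ^ 4)⁻¹ := by
    intro l hl
    have hl0 : 0 < l := by linarith
    refine ⟨?_, ?_, by positivity, by positivity⟩
    · exact inv_anti₀ (by positivity) (pow_le_pow_right₀ hl (by norm_num))
    · exact inv_le_one_of_one_le₀ (one_le_pow₀ hl)
  obtain ⟨a1, a2, a3, a4⟩ := hpow la ha
  obtain ⟨b1, b2, b3, b4⟩ := hpow lb hb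
  have hEa := (e5 la).1
  have hEb := (e5 lb).1
  set δ : ℝ := (10 ^ 20 : ℝ)⁻¹ with hδ
  have hδ0 : 0 < δ := by positivity
  have hδ1 : δ ≤ 1 := by
    rw [hδ]
    exact inv_le_one_of_one_le₀ (by norm_num)
  have hx := hprod
  unfold eF
  by_cases s1 : σM p.1 = 0
  · by_cases s2 : σM p.2 = 0
    · rw [if_pos s1, if_pos s2, if_pos ⟨s1, s2, h⟩]
      refine hprod.trans ?_
      have : 0 ≤ L * env M L * (δ * ((la ^ 4)⁻¹ + (lb ^ 4)⁻¹)) := by positivity
      linarith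
    · rw [if_pos s1, if_neg s2, if_neg (fun hh => s2 hh.2.1), zero_add]
      calc env M la * (δ * (lb ^ 7)⁻¹ * env M lb) =
          (env M la * env M lb) * (δ * (lb ^ 7)⁻¹) := by ring
        _ ≤ (L * env M L) * (δ * (lb ^ 4)⁻¹) := by gcongr
        _ ≤ (L * env M L) * (δ * ((la ^ 4)⁻¹ + (lb ^ 4)⁻¹)) := by
          gcongr
          linarith
  · by_cases s2 : σM p.2 = 0
    · rw [if_neg s1, if_pos s2, if_neg (fun hh => s1 hh.1), zero_add]
      calc (δ * (la ^ 7)⁻¹ * env M la) * env M lb =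
          (env M la * env M lb) * (δ * (la ^ 7)⁻¹) := by ring
        _ ≤ (L * env M L) * (δ * (la ^ 4)⁻¹) := by gcongr
        _ ≤ (L * env M L) * (δ * ((la ^ 4)⁻¹ + (lb ^ 4)⁻¹)) := by
          gcongr
          linarith
    · rw [if_neg s1, if_neg s2, if_neg (fun hh => s1 hh.1), zero_add]
      calc (δ * (la ^ 7)⁻¹ * env M la) * (δ * (lb ^ 7)⁻¹ * env M lb) =
          (env M la * env M lb) * ((δ * (la ^ 7)⁻¹) * (δ * (lb ^ 7)⁻¹)) := by ring
        _ ≤ (L * env M L) * ((δ * (la ^ 4)⁻¹) * (1 * 1)) := by gcongr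
        _ ≤ (L * env M L) * (δ * ((la ^ 4)⁻¹ + (lb ^ 4)⁻¹)) := by
          rw [mul_one, mul_one]
          exact mul_le_mul_of_nonneg_left (mul_le_mul_of_nonneg_left (by linarith) hδ0.le) hLE

theorem t_RATE : S_RATE := by
  intro _ hC hSU hV hLat hE h hF M hM i
  classical
  obtain ⟨⟨hs4, ht4⟩, _⟩ := hLat
  obtain ⟨-, hcK, -⟩ := hV h hF
  have hL := (hC.2.2.2.2.1 i).1
  obtain ⟨-, -, -, -, e5, -⟩ := hE.1 M hM
  have hpos := (e5 (ln i)).1
  have hu0 : ∀ a : Md, 0 ≤ (ln a ^ 4)⁻¹ := fun a => by positivity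
  have heF : ∀ a : Md, 0 ≤ eF M a := by
    intro a
    have h1 := (e5 (ln a)).1
    have h2 := (hC.2.2.2.2.1 a).1
    unfold eF
    split_ifs
    · exact h1.le
    · positivity
  obtain ⟨m1, m2⟩ := sum_main hSU i.1.1 i.1.2
  obtain ⟨f1, f2⟩ := sum_fst _ hu0 hs4 i.1.1
  obtain ⟨g1, g2⟩ := sum_snd _ hu0 hs4 i.1.1
  set A : Md × Md → ℝ := fun p =>
    if σM p.1 = 0 ∧ σM p.2 = 0 ∧ p.1.1.1 + p.2.1.1 = i.1.1 then (1 : ℝ) else 0 with hA
  set B : Md × Md → ℝ := fun p =>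
    if p.1.1.1 + p.2.1.1 = i.1.1 then (ln p.1 ^ 4)⁻¹ else 0 with hB
  set D : Md × Md → ℝ := fun p =>
    if p.1.1.1 + p.2.1.1 = i.1.1 then (ln p.2 ^ 4)⁻¹ else 0 with hD
  set C0 : ℝ := 2 * Real.pi * ln i * (ln i * env M (ln i)) with hC0
  have hpi := Real.pi_pos
  have hC00 : 0 ≤ C0 := by positivity
  have hnn : ∀ p : Md × Md, 0 ≤ ‖cK h i p.1 p.2‖ * eF M p.1 * eF M p.2 := fun p =>
    mul_nonneg (mul_nonneg (norm_nonneg _) (heF _)) (heF _)
  have hle : ∀ p : Md × Md, ‖cK h i p.1 p.2‖ * eF M p.1 * eF M p.2 ≤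
      C0 * (A p + (10 ^ 20 : ℝ)⁻¹ * (B p + D p)) := by
    intro p
    by_cases hp : p.1.1.1 + p.2.1.1 = i.1.1
    · have h1 := prod_le hC hE hM i p hp
      have h2 := (hcK i p.1 p.2).1
      simp only [hA, hB, hD, if_pos hp]
      rw [mul_assoc]
      calc ‖cK h i p.1 p.2‖ * (eF M p.1 * eF M p.2) ≤
          (2 * Real.pi * ln i) * (eF M p.1 * eF M p.2) :=
            mul_le_mul_of_nonneg_right h2 (mul_nonneg (heF _) (heF _))
        _ ≤ (2 * Real.pi * ln i) * (ln i * env M (ln i) * _) :=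
            mul_le_mul_of_nonneg_left h1 (by positivity)
        _ = _ := by
          rw [hC0]
          ring
    · have h0 : cK h i p.1 p.2 = 0 := by
        unfold cK
        rw [if_neg hp]
      rw [h0, norm_zero, zero_mul, zero_mul]
      have hA0 : A p = 0 := if_neg fun hh => hp hh.2.2
      have hB0 : B p = 0 := if_neg hp
      have hD0 : D p = 0 := if_neg hp
      rw [hA0, hB0, hD0]
      simp
  have hsum : Summable fun p => C0 * (A p + (10 ^ 20 : ℝ)⁻¹ * (B p + D p)) :=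
    (m1.add ((f1.add g1).mul_left _)).mul_left _
  have hS := Summable.of_nonneg_of_le hnn hle hsum
  refine ⟨hS, ?_⟩
  refine (hS.tsum_le_tsum hle hsum).trans ?_
  rw [tsum_mul_left, m1.tsum_add ((f1.add g1).mul_left _), tsum_mul_left, f1.tsum_add g1]
  have h3 : (∑' p, A p) + (10 ^ 20 : ℝ)⁻¹ * ((∑' p, B p) + ∑' p, D p) ≤ 33 := by
    have h4 : (∑' p, B p) + ∑' p, D p ≤ 4000 := by linarith
    have h5 : (10 ^ 20 : ℝ)⁻¹ * ((∑' p, B p) + ∑' p, D p) ≤ (10 ^ 20 : ℝ)⁻¹ * 4000 :=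
      mul_le_mul_of_nonneg_left h4 (by positivity)
    have h6 : (10 ^ 20 : ℝ)⁻¹ * 4000 ≤ 1 := by norm_num
    linarith
  calc C0 * ((∑' p, A p) + (10 ^ 20 : ℝ)⁻¹ * ((∑' p, B p) + ∑' p, D p)) ≤ C0 * 33 :=
        mul_le_mul_of_nonneg_left h3 hC00
    _ = (66 * Real.pi) * (ln i ^ 2 * env M (ln i)) := by
        rw [hC0]
        ring
    _ ≤ 10 ^ 4 * (ln i ^ 2 * env M (ln i)) := by
        refine mul_le_mul_of_nonneg_right ?_ (by positivity)
        have := Real.pi_lt_four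
        linarith
    _ = rF M i := by
        unfold rF
        ring

end Pool.Agent.Y217.EP.Rate
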